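import Mathlib
import Pool.Agent.R218.QI.Final

/-!
# MP_c0fb52_nt, Q1: the identity `F_3(1,5,1,12) = χ(Λ_5)` holds

All series are elements of `ℤ⟦X⟧` (`X` plays the role of `q`), with the coefficientwise
(product of discrete) topology.
-/

set_option autoImplicit false

open Finset PowerSeries
open scoped PowerSeries.WithPiTopology

namespace Pool.Agent.Results.MP_c0fb52_nt.QuadrupleSumIdentity

/-- the finite product `(x; p)_n = ∏_{m<n} (1 - x p^m)` -/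
noncomputable def poch (x p : PowerSeries ℤ) (n : ℕ) : PowerSeries ℤ :=
  ∏ m ∈ range n, (1 - x * p ^ m)

/-- the infinite product `(x; p)_∞ = ∏_{m≥0} (1 - x p^m)` -/
noncomputable def pochInf (x p : PowerSeries ℤ) : PowerSeries ℤ := ∏' m : ℕ, (1 - x * p ^ m)

/-- `[q^a; q^c]_∞ = (q^a; q^c)_∞ (q^{c-a}; q^c)_∞` (used with `a ≤ c`) -/
noncomputable def brInf (a c : ℕ) : PowerSeries ℤ :=
  pochInf (X ^ a) (X ^ c) * pochInf (X ^ (c - a)) (X ^ c)

/-- the exponent `E(i,j,k,l)` -/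
def EE (i j k l : ℕ) : ℕ :=
  2 * i.choose 2 + 4 * j.choose 2 + 2 * k.choose 2 + 16 * l.choose 2
    + 2 * i * j + 2 * i * k + 4 * i * l + 4 * j * k + 8 * j * l + 4 * k * l

/-- the denominator `(q;q)_i (q²;q²)_j (q²;q²)_k (q⁴;q⁴)_l` at `x = (i,j,k,l)` -/
noncomputable def den (x : ℕ × ℕ × ℕ × ℕ) : PowerSeries ℤ :=
  poch X X x.1 * poch (X ^ 2) (X ^ 2) x.2.1 * poch (X ^ 2) (X ^ 2) x.2.2.1 *
    poch (X ^ 4) (X ^ 4) x.2.2.2

/-- the summand of `F_3(a,b,c,d)`, indexed by `x = (i,j,k,l)` -/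
noncomputable def summand (a b c d : ℕ) (x : ℕ × ℕ × ℕ × ℕ) : PowerSeries ℤ :=
  X ^ (EE x.1 x.2.1 x.2.2.1 x.2.2.2 + a * x.1 + b * x.2.1 + c * x.2.2.1 + d * x.2.2.2)
    * Ring.inverse (den x) * (-1) ^ x.2.2.1

/-- `F_3(a,b,c,d)`, the sum over all `(i,j,k,l)` -/
noncomputable def F3 (a b c d : ℕ) : PowerSeries ℤ := ∑' x : ℕ × ℕ × ℕ × ℕ, summand a b c d x

/-- `χ(Λ_r) = (q^16;q^16)_∞ [q^{2r};q^16]_∞ / ((q²;q²)_∞ [q^r;q^16]_∞)` -/
noncomputable def chi (r : ℕ) : PowerSeries ℤ :=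
  pochInf (X ^ 16) (X ^ 16) * brInf (2 * r) 16 *
    Ring.inverse (pochInf (X ^ 2) (X ^ 2) * brInf r 16)

/-- The identity `F_3(1,5,1,12) = χ(Λ_5)` of formal power series with integer coefficients;
the first three parts say that every inverse, infinite product and infinite sum in it is genuine. -/
theorem result :
    (∀ x, IsUnit (den x)) ∧
    (∀ a c : ℕ, 0 < a → 0 < c →
      Multipliable (fun m : ℕ => (1 : PowerSeries ℤ) - X ^ a * (X ^ c) ^ m) ∧
        IsUnit (pochInf (X ^ a) (X ^ c))) ∧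
    Summable (summand 1 5 1 12) ∧
    F3 1 5 1 12 = chi 5 :=
  ⟨Pool.Agent.R218.QI.den_unit,
    fun a c ha hc => ⟨Pool.Agent.R218.QI.multipliable_poch a c hc,
      Pool.Agent.R218.QI.isUnit_pochInf a c ha hc⟩,
    Pool.Agent.R218.QI.summable_summand, Pool.Agent.R218.QI.main_eq⟩

end Pool.Agent.Results.MP_c0fb52_nt.QuadrupleSumIdentity
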